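import Mathlib
import Pool.Agent.W866.GalFilter

/-!
# Fine normal ultrafilters on `P_κ(κ⁺)` fail `Gal(U, κ, κ⁺⁺)`, and `Gal(U, κ, 2 ^ κ⁺)` if `2 ^ κ = κ⁺`

Idea: for a function `f : κ⁺ → κ⁺` the set of all `y` closed under `f` is in every fine normal `U`.
If `κ` many pairwise eventually different functions are given, they take pairwise different values
at some `γ < κ⁺`, so no `y` of size `< κ` containing `γ` is closed under all of them.
-/

set_option autoImplicit false

namespace Pool.Agent.Results.MP_a3089e_lc.NotGal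

open Cardinal Set

universe u

/-- `P_κ(X)`: the subsets of `X` of cardinality less than `κ`. -/
abbrev PK (κ : Cardinal.{u}) (X : Type u) : Type u := {x : Set X // #x < κ}

/-- `U` is a fine normal ultrafilter over `P_κ(X)`: it is `κ`-complete, fine and normal. -/
structure FineNormal (κ : Cardinal.{u}) (X : Type u) (U : Ultrafilter (PK κ X)) : Prop where
  complete : ∀ S : Set (Set (PK κ X)), #S < κ → (∀ s ∈ S, s ∈ U) → ⋂₀ S ∈ U
  fine : ∀ a : X, {x : PK κ X | a ∈ x.1} ∈ U
  normal : ∀ f : PK κ X → X, {x : PK κ X | f x ∈ x.1} ∈ U → ∃ a : X, {x : PK κ X | f x = a} ∈ U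

/-- The Galvin property `Gal(U, μ, θ)`: any `θ` many distinct members of `U` include `μ` many whose
intersection is a member of `U`. -/
def Gal {P : Type u} (U : Ultrafilter P) (μ θ : Cardinal.{u}) : Prop :=
  ∀ S : Set (Set P), (∀ s ∈ S, s ∈ U) → #S = θ → ∃ T ⊆ S, #T = μ ∧ ⋂₀ T ∈ U

theorem key {κ : Cardinal.{u}} (hκ : ℵ₀ < κ) {X : Type u} (hX : #X = Order.succ κ)
    {U : Ultrafilter (PK κ X)} (hU : FineNormal κ X U) {Λ : Type u} (hΛ : κ < #Λ)
    (h : Λ → (Order.succ κ).ord.ToType → (Order.succ κ).ord.ToType)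
    (hh : ∀ i j, i ≠ j → ∃ b, ∀ a, b ≤ a → h i a ≠ h j a) : ¬ Gal U κ #Λ := by
  classical
  have hreg : (Order.succ κ).IsRegular := isRegular_succ hκ.le
  have hXe : #X = #((Order.succ κ).ord.ToType) := by rw [hX, Cardinal.mk_toType, card_ord]
  obtain ⟨e⟩ := Cardinal.eq.1 hXe
  -- the functions on `X`
  let f : Λ → X → X := fun i x => e.symm (h i (e x))
  let A : Λ → Set (PK κ X) := fun i => {y | ∀ x ∈ y.1, f i x ∈ y.1}
  have hA : ∀ i, A i ∈ U := by
    intro i
    by_contra hcon
    have h1 : (A i)ᶜ ∈ U := Ultrafilter.compl_mem_iff_notMem.2 hcon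
    have h2 : ∀ y : PK κ X, ∃ x : X, y ∈ (A i)ᶜ → x ∈ y.1 ∧ f i x ∉ y.1 := by
      intro y
      by_cases hy : y ∈ (A i)ᶜ
      · have : ¬ ∀ x ∈ y.1, f i x ∈ y.1 := hy
        push Not at this
        obtain ⟨x, hx, hx2⟩ := this
        exact ⟨x, fun _ => ⟨hx, hx2⟩⟩
      · have : Nonempty X := by
          rw [← mk_ne_zero_iff, hX]
          exact ((zero_le (a := κ)).trans_lt (Order.lt_succ κ)).ne'
        exact ⟨this.some, fun hy' => absurd hy' hy⟩
    choose g hg using h2
    obtain ⟨a, ha⟩ := hU.normal g (Filter.mem_of_superset h1 (fun y hy => (hg y hy).1))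
    have h3 : ({y : PK κ X | g y = a} ∩ (A i)ᶜ) ∩ {y : PK κ X | f i a ∈ y.1} ∈ U :=
      Filter.inter_mem (Filter.inter_mem ha h1) (hU.fine _)
    obtain ⟨y, ⟨hy1, hy2⟩, hy3⟩ := U.nonempty_of_mem h3
    have h4 := (hg y hy2).2
    have h5 : g y = a := hy1
    rw [h5] at h4
    exact h4 hy3
  -- no `κ` many of them have intersection in `U`
  have hI : ∀ I : Set Λ, #I = κ → ⋂ i ∈ I, A i ∉ U := by
    intro I hI hmem
    have hb : ∀ p : I × I, ∃ b, p.1 ≠ p.2 → ∀ a, b ≤ a → h p.1 a ≠ h p.2 a := by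
      intro p
      by_cases hp : p.1 = p.2
      · have := Pool.Agent.H348R6.GV.nonempty_toType hreg
        exact ⟨this.some, fun hne => absurd hp hne⟩
      · obtain ⟨b, hb⟩ := hh p.1 p.2 (fun heq => hp (Subtype.ext heq))
        exact ⟨b, fun _ => hb⟩
    choose b hb using hb
    have hcard : #(I × I) < Order.succ κ := by
      simp only [mk_prod, lift_id]
      rw [hI, mul_eq_self hκ.le]
      exact Order.lt_succ κ
    obtain ⟨c, hc⟩ := Pool.Agent.H348R6.GV.bdd_of_lt hreg b hcard
    have h3 : (⋂ i ∈ I, A i) ∩ {y : PK κ X | e.symm c ∈ y.1} ∈ U :=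
      Filter.inter_mem hmem (hU.fine _)
    obtain ⟨y, hy1, hy2⟩ := U.nonempty_of_mem h3
    have hinj : Function.Injective
        (fun i : I => (⟨f i (e.symm c), mem_iInter₂.1 hy1 i.1 i.2 _ hy2⟩ : y.1)) := by
      intro i j hij
      by_contra hne
      have h4 : f i (e.symm c) = f j (e.symm c) := congrArg Subtype.val hij
      have h5 : h i c = h j c := by
        have := e.symm.injective h4
        simpa using this
      exact hb (i, j) hne c (hc (i, j)).le h5
    have h6 := mk_le_of_injective hinj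
    rw [hI] at h6
    exact absurd (h6.trans_lt y.2) (lt_irrefl _)
  intro hG
  -- the set of all the `A i` has cardinality `#Λ`
  have hfib : ∀ s : range A, #(A ⁻¹' {s.1}) ≤ κ := by
    rintro ⟨s, i0, rfl⟩
    by_contra hcon
    push Not at hcon
    obtain ⟨I, hI1, hI2⟩ := le_mk_iff_exists_subset.1 hcon.le
    refine hI I hI2 (Filter.mem_of_superset (hA i0) ?_)
    refine subset_iInter₂ (fun i hi => ?_)
    have := hI1 hi
    simp only [mem_preimage, mem_singleton_iff] at this
    rw [this]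
  have hcardle : #Λ ≤ #(range A) * κ := by
    have h1 : #Λ = #(Σ s : range A, A ⁻¹' {s.1}) := by
      refine mk_congr ⟨fun i => ⟨⟨A i, i, rfl⟩, ⟨i, rfl⟩⟩, fun p => p.2.1, fun i => rfl, ?_⟩
      rintro ⟨⟨s, hs⟩, ⟨i, hi⟩⟩
      have hi' : A i = s := hi
      subst hi'
      rfl
    rw [h1, mk_sigma]
    calc Cardinal.sum (fun s : range A => #(A ⁻¹' {s.1}))
        ≤ Cardinal.sum (fun _ : range A => κ) := sum_le_sum _ _ hfib
      _ = #(range A) * κ := by rw [sum_const']
  have hrange : #(range A) = #Λ := by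
    refine le_antisymm mk_range_le ?_
    by_contra hcon
    push Not at hcon
    have : #(range A) * κ < #Λ := mul_lt_of_lt (hκ.le.trans hΛ.le) hcon hΛ
    exact absurd (hcardle.trans_lt this) (lt_irrefl _)
  obtain ⟨T, hT, hT1, hT2⟩ := hG (range A) (by rintro s ⟨i, rfl⟩; exact hA i) hrange
  have hne : Nonempty Λ := by
    rw [← mk_ne_zero_iff]
    exact ((zero_le (a := κ)).trans_lt hΛ).ne'
  choose! r hr using fun s (hs : s ∈ T) => hT hs
  have hrinj : InjOn r T := by
    intro s hs t ht hst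
    rw [← hr s hs, ← hr t ht, hst]
  refine hI (r '' T) ?_ ?_
  · rw [mk_image_eq_of_injOn r T hrinj, hT1]
  · rw [biInter_image]
    refine Filter.mem_of_superset hT2 ?_
    refine subset_iInter₂ (fun s hs => ?_)
    rw [hr s hs]
    exact sInter_subset_of_mem hs

theorem result (κ : Cardinal.{u}) (hκ : ℵ₀ < κ) (X : Type u) (hX : #X = Order.succ κ)
    (U : Ultrafilter (PK κ X)) (hU : FineNormal κ X U) :
    ¬ Gal U κ (Order.succ (Order.succ κ)) ∧
    ((2 : Cardinal.{u}) ^ κ = Order.succ κ → ¬ Gal U κ (2 ^ Order.succ κ)) := by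
  have hreg : (Order.succ κ).IsRegular := isRegular_succ hκ.le
  constructor
  · obtain ⟨h, hh⟩ := Pool.Agent.H348R6.GV.exists_scale hreg
    have hcard : #((Order.succ (Order.succ κ)).ord.ToType) = Order.succ (Order.succ κ) := by
      rw [Cardinal.mk_toType, card_ord]
    have := key hκ hX hU (Λ := (Order.succ (Order.succ κ)).ord.ToType)
      (by rw [hcard]; exact (Order.lt_succ κ).trans (Order.lt_succ _)) h ?_
    · rwa [hcard] at this
    · intro i j hij
      rcases lt_or_gt_of_ne hij with hlt | hlt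
      · obtain ⟨b, hb⟩ := hh j i hlt
        exact ⟨b, fun a ha => (hb a ha).ne⟩
      · obtain ⟨b, hb⟩ := hh i j hlt
        exact ⟨b, fun a ha => (hb a ha).ne'⟩
  · intro h2
    obtain ⟨h, hh⟩ := Pool.Agent.W866.GalFilter.exists_ev_diff hreg (by
      intro μ hμ
      rw [← h2]
      exact power_le_power_left two_ne_zero (Order.lt_succ_iff.1 hμ))
    have hcard : #(Set (Order.succ κ).ord.ToType) = 2 ^ Order.succ κ := by
      rw [mk_set, Cardinal.mk_toType, card_ord]
    have := key hκ hX hU (Λ := Set (Order.succ κ).ord.ToType)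
      (by rw [hcard]; exact (Order.lt_succ κ).trans (cantor _)) h hh
    rwa [hcard] at this

end Pool.Agent.Results.MP_a3089e_lc.NotGal
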